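import Pool.Agent.H40.NE.Obst

/-!
# Obstructions to Nash equilibria in deterministic two-player reachability games

`Game`, `Strat₁`, `Strat₂`, `prob`, `pay`, `IsNash`, `val₁`, `val₂`, `swap` (the game with the
players exchanged), `Step`, `SafeStep`, `Stuck`, `Settled` and `Prunes` are in
`Pool/Agent/H95/NE/Defs.lean`; `Open`, `OStep`, `LStep`, `CStep`, `Block`, `Controlled`, `Replay`,
`Regular` and `Obstruction` are in `Pool/Agent/H40/NE/ObstDefs.lean`.

A game without an exact Nash equilibrium from `s₀` has, after any pruning, a strongly connected set
`C` of open states at which the values add up to less than `1`, that can be reached from `s₀` through
open states, from which a state that is stuck for both players can be reached through open states at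
which the values add up to less than `1`, which cannot be left surely by a block of actions that
dominates the other actions, which is neither controlled nor a replay set, and which is not a single
state that is regular for a player (a state with a loop at which a player has at most two actions is
regular for the opponent).

Method: take a bottom strongly connected component `C` of the graph of the states without
equilibrium; all exits from `C` have an equilibrium. If all outcomes of a block at a state of `C` were
exits, an equilibrium of the bimatrix game of the continuation payoffs on the block would give one
from that state, since a deviation out of the block can be punished. If `C` were controlled, the
values of the zero-sum turn-based games in which the one-shot equilibria at the exits are the final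
payoffs would give a path that is an equilibrium with the help of threats. If `C` were a replay set,
then a limit of equilibria of discounted games, combined with one of these equilibria for the player
who leaves `C` with vanishing probability, would give one. If `C` were a single regular state, the
same would work with equilibria of games in which only one player discounts. The doubly stuck state
comes from the theorem `exists_dstuck`: call a state full if an equilibrium from it has payoffs that
add up to at least `1` (settled states and states at which the values add up to at least `1` are
full); then a state that is not full leads to a doubly stuck state through such states.
-/

set_option autoImplicit false

namespace Pool.Agent.Results.MP_0c5457_lc.NoObstruction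

open Pool.Agent.H95.NE Pool.Agent.H40.NE

/-- **Main theorem.** An exact Nash equilibrium exists from `s₀` if finitely many prunings lead to a
game in which there is no obstruction for `s₀`. -/
theorem result {S A B : Type} [Finite S] (G : Game S A B) (T₁ T₂ : Set S) (s₀ : S)
    (h : ∃ G' : Game S A B, Relation.ReflTransGen (Game.Prunes T₁ T₂) G G' ∧
      ∀ C, ¬ Obstruction G' T₁ T₂ s₀ C) :
    ∃ (σ : List (A × B) → A → ℝ) (τ : List (A × B) → B → ℝ), G.IsNash T₁ T₂ s₀ σ τ :=
  nash_of_no_obstruction G T₁ T₂ s₀ h

end Pool.Agent.Results.MP_0c5457_lc.NoObstruction
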