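import Pool.Agent.H95.NE.Final

/-!
# Nash equilibria in deterministic two-player reachability games: no stuck states by tight moves

The definitions (`Game`, `Strat₁`, `Strat₂`, `prob`, `pay`, `IsNash`, `val₁`, `val₂`, `swap`, `Opt₁`,
`Opt₂`, `TStep`, `SafeStep`, `Stuck`, `NoStuck`, `Prunes`) are in `Pool/Agent/H95/NE/Defs.lean`.

A state is stuck for player 1 if the value of player 1 is `0` there and `T₂` cannot be reached from it,
even if both players cooperate, as long as player 2 uses only actions which keep the value of player 1 at
`0`. A move is tight if it starts outside of the targets at a state of positive value of player 1 and uses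
actions that occur in optimal mixed actions of the one-shot zero-sum game in which the payoff is the value
of player 1 at the next state.

There is an exact Nash equilibrium from `s₀` if for one of the players no stuck state is reached by tight
moves. It is even enough that this holds in a game that arises by finitely many prunings (deletions of weak
actions). The equilibrium of the pruned game is found from a strictly complementary pair of optimal mixed
actions at each state: player 2 caps player 1 at the value `v`, player 1 caps player 2 at `1 - v`, and the
play is absorbed almost surely because `v` is the least pre-fixed point of the value operator.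
-/

set_option autoImplicit false

namespace Pool.Agent.Results.MP_0c5457_lc.NoStuckTightMoves

open Pool.Agent.H95.NE

/-- **Main theorem.** An exact Nash equilibrium exists from `s₀` if finitely many prunings lead to a
game in which, for one of the players, no stuck state is reached from `s₀` by tight moves. -/
theorem result {S A B : Type} [Finite S] (G : Game S A B) (T₁ T₂ : Set S) (s₀ : S)
    (h : ∃ G' : Game S A B, Relation.ReflTransGen (Game.Prunes T₁ T₂) G G' ∧
      (G'.NoStuck T₁ T₂ s₀ ∨ G'.swap.NoStuck T₂ T₁ s₀)) :
    ∃ (σ : List (A × B) → A → ℝ) (τ : List (A × B) → B → ℝ), G.IsNash T₁ T₂ s₀ σ τ :=
  Game.final_tight G T₁ T₂ s₀ h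

end Pool.Agent.Results.MP_0c5457_lc.NoStuckTightMoves
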