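import Pool.Agent.H95.NE.Final

/-!
# Nash equilibria in deterministic two-player reachability games: values that add up to one

The definitions (`Game`, `Strat₁`, `Strat₂`, `prob`, `pay`, `IsNash`, `val₁`, `val₂`, `Prunes`) are in
`Pool/Agent/H95/NE/Defs.lean`.

There is an exact Nash equilibrium from `s₀` if the values of the two players at `s₀` add up to at least
`1`, for instance if the value of a player is `1`. It is even enough that this holds in a game that arises
by finitely many prunings (deletions of weak actions).

Method: if no play visits both targets then `v₁ ≤ 1 - v₂` at all reachable states; let `Z` be the set
of the reachable states with equality. At a state of `Z` the one-shot games with the payoffs `v₁` and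
`1 - v₂` of the next state have the same value. By the Farkas lemma there is a pair of mixed actions
which caps both players at their values, keeps the play in `Z`, and uses all actions of player 1 that are
tight against the mixed action of player 2 (`quasi`). The play under these pairs reaches a target almost
surely because `v₁` and `v₂` are least fixed points.
-/

set_option autoImplicit false

namespace Pool.Agent.Results.MP_0c5457_lc.ValueSumOne

open Pool.Agent.H95.NE

/-- **Main theorem.** An exact Nash equilibrium exists from `s₀` if finitely many prunings lead to a
game in which the values of the two players at `s₀` add up to at least `1`. -/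
theorem result {S A B : Type} [Finite S] (G : Game S A B) (T₁ T₂ : Set S) (s₀ : S)
    (h : ∃ G' : Game S A B, Relation.ReflTransGen (Game.Prunes T₁ T₂) G G' ∧
      1 ≤ G'.val₁ T₁ s₀ + G'.val₂ T₂ s₀) :
    ∃ (σ : List (A × B) → A → ℝ) (τ : List (A × B) → B → ℝ), G.IsNash T₁ T₂ s₀ σ τ :=
  Game.final_sum G T₁ T₂ s₀ h

end Pool.Agent.Results.MP_0c5457_lc.ValueSumOne
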